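import Mathlib
import Pool.Agent.MP_df0aa7_co.Main

/-!
Schur test on the states of bounded height and Chebyshev polynomials give a tail bound.
-/

set_option autoImplicit false

open Finset Matrix
open scoped symmDiff

namespace Pool.Agent.MP_df0aa7_co.AD

variable {V : Type} [Fintype V] [DecidableEq V] (G : SimpleGraph V) [DecidableRel G.Adj]

lemma T_sym (f g : St V → ℝ) : ∑ x, f x * Tw G univ g x = ∑ x, Tw G univ f x * g x := by
  have e : ∀ F : V → V → ℝ, ∑ v, ∑ w ∈ G.neighborFinset v, F v w =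
      ∑ v, ∑ w, if G.Adj v w then F v w else 0 := by
    intro F
    refine sum_congr rfl fun v _ => ?_
    rw [← sum_filter]
    refine sum_congr ?_ fun _ _ => rfl
    ext w
    simp
  rw [Fintype.sum_prod_type, Fintype.sum_prod_type]
  simp only [Tw_univ, mul_sum, sum_mul]
  have h1 : ∀ v, ∑ z, ∑ w ∈ G.neighborFinset v, f (v, z) * g (w, z ∆ {s(v, w)}) =
      ∑ w ∈ G.neighborFinset v, ∑ z, f (v, z) * g (w, z ∆ {s(v, w)}) := fun v => sum_comm
  have h2 : ∀ v, ∑ z, ∑ w ∈ G.neighborFinset v, f (w, z ∆ {s(v, w)}) * g (v, z) =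
      ∑ w ∈ G.neighborFinset v, ∑ z, f (w, z ∆ {s(v, w)}) * g (v, z) := fun v => sum_comm
  simp only [h1, h2]
  rw [e, e, sum_comm]
  refine sum_congr rfl fun v _ => sum_congr rfl fun w _ => ?_
  simp only [G.adj_comm w v]
  split_ifs
  · rw [← sum_symmDiff s(v, w) fun z => f (w, z) * g (v, z ∆ {s(w, v)})]
    refine sum_congr rfl fun z _ => ?_
    rw [Sym2.eq_swap (a := w), symmDiff_symmDiff_cancel_right]
  · rfl

/-- Degree in `z`, with one phantom edge at the base vertex. -/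
def dg (v0 : V) (z : Finset (Sym2 V)) (u : V) : ℕ :=
  (z.filter (u ∈ ·)).card + if u = v0 then 1 else 0

/-- States of height at most `j`. -/
def Good (v0 : V) (j : ℕ) (x : St V) : Prop :=
  (∀ e ∈ x.2, e ∈ G.edgeSet) ∧ x.2.card ≤ j ∧ ∀ u, Odd (dg v0 x.2 u) ↔ u = x.1

omit [Fintype V] in
lemma dg_insert (v0 : V) {z : Finset (Sym2 V)} {e : Sym2 V} (h : e ∉ z) (u : V) :
    dg v0 (z ∆ {e}) u = dg v0 z u + if u ∈ e then 1 else 0 := by
  have : z ∆ {e} = insert e z := by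
    ext x
    by_cases hx : x = e <;> simp [mem_symmDiff, hx, h]
  rw [this, dg, dg, filter_insert]
  by_cases hu : u ∈ e
  · rw [if_pos hu, if_pos hu, card_insert_of_notMem (by simp [h])]
    ring
  · rw [if_neg hu, if_neg hu, add_zero]

omit [Fintype V] in
lemma dg_erase (v0 : V) {z : Finset (Sym2 V)} {e : Sym2 V} (h : e ∈ z) (u : V) :
    dg v0 z u = dg v0 (z ∆ {e}) u + if u ∈ e then 1 else 0 := by
  have h1 : e ∉ z ∆ {e} := by simp [mem_symmDiff, h]
  have := dg_insert v0 h1 u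
  rwa [symmDiff_symmDiff_cancel_right] at this

omit [Fintype V] [DecidableRel G.Adj] in
lemma Good.mono {v0 : V} {i j : ℕ} {x : St V} (h : Good G v0 i x) (hij : i ≤ j) :
    Good G v0 j x := ⟨h.1, h.2.1.trans hij, h.2.2⟩

omit [Fintype V] [DecidableRel G.Adj] in
lemma Good.step {v0 : V} {j : ℕ} {v w : V} {z : Finset (Sym2 V)} (ha : G.Adj v w)
    (h : Good G v0 j (w, z ∆ {s(v, w)})) : Good G v0 (j + 1) (v, z) := by
  obtain ⟨h1, h2, h3⟩ := h
  have hne := ha.ne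
  refine ⟨fun e he => ?_, ?_, fun u => ?_⟩
  · by_cases k : e = s(v, w)
    · rw [k]; exact ha
    · exact h1 e (by simp [mem_symmDiff, k]; exact he)
  · have := card_symmDiff_le s(v, w) (z ∆ {s(v, w)})
    rw [symmDiff_symmDiff_cancel_right] at this
    exact this.trans (Nat.succ_le_succ h2)
  · have h4 := h3 u
    simp only [Nat.odd_iff] at h4 ⊢
    by_cases k : s(v, w) ∈ z
    · have h5 := dg_erase v0 k u
      simp only [Sym2.mem_iff] at h5
      by_cases a : u = v <;> by_cases b : u = w <;> simp_all <;> omega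
    · have h5 := dg_insert v0 k u
      simp only [Sym2.mem_iff] at h5
      by_cases a : u = v <;> by_cases b : u = w <;> simp_all <;> omega

lemma good_T {v0 : V} {j : ℕ} {u : St V → ℝ} (hu : ∀ x, u x ≠ 0 → Good G v0 j x) (x : St V)
    (h : Tw G univ u x ≠ 0) : Good G v0 (j + 1) x := by
  rw [Tw_univ] at h
  obtain ⟨w, hw, hne⟩ := exists_ne_zero_of_sum_ne_zero h
  exact Good.step G (by simpa using hw) (hu _ hne)

lemma schur {v0 : V} {H : ℕ} {ρ : ℝ} (hρ : 0 ≤ ρ) {φ : St V → ℝ} (h0 : ∀ x, 0 < φ x)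
    (hφ : ∀ x, Good G v0 H x → Tw G univ φ x ≤ ρ * φ x) {j : ℕ} (hj : j + 1 ≤ H)
    {u : St V → ℝ} (hu : ∀ x, u x ≠ 0 → Good G v0 j x) :
    nsq (Tw G univ u) ≤ ρ ^ 2 * nsq u := by
  have hT : ∀ x, 0 ≤ Tw G univ (fun y => u y ^ 2 / φ y) x := by
    intro x
    rw [Tw_univ]
    exact sum_nonneg fun _ _ => div_nonneg (sq_nonneg _) (h0 _).le
  have h1 : ∀ x, Tw G univ u x ^ 2 ≤ ρ * (φ x * Tw G univ (fun y => u y ^ 2 / φ y) x) := by
    intro x
    by_cases hx : Tw G univ u x = 0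
    · rw [hx]
      have := mul_nonneg hρ (mul_nonneg (h0 x).le (hT x))
      simpa using this
    · have h2 := hφ x ((good_T G hu x hx).mono G hj)
      have h3 : Tw G univ u x ^ 2 ≤
          Tw G univ φ x * Tw G univ (fun y => u y ^ 2 / φ y) x := by
        simp only [Tw_univ]
        refine sum_sq_le_sum_mul_sum_of_sq_le_mul _ (fun _ _ => (h0 _).le)
          (fun _ _ => div_nonneg (sq_nonneg _) (h0 _).le) fun w _ => le_of_eq ?_
        have := (h0 (w, x.2 ∆ {s(x.1, w)})).ne'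
        field_simp
      refine h3.trans ?_
      rw [← mul_assoc]
      exact mul_le_mul_of_nonneg_right h2 (hT x)
  refine (sum_le_sum fun x _ => h1 x).trans ?_
  rw [← mul_sum, T_sym, sq ρ, mul_assoc, nsq]
  refine mul_le_mul_of_nonneg_left ?_ hρ
  rw [mul_sum]
  refine sum_le_sum fun x _ => ?_
  by_cases hx : u x = 0
  · simp [hx]
  · have h2 := hφ x ((hu x hx).mono G (by omega))
    have h3 := h0 x
    calc Tw G univ φ x * (u x ^ 2 / φ x) ≤ ρ * φ x * (u x ^ 2 / φ x) := by gcongr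
      _ = ρ * u x ^ 2 := by field_simp

lemma cheb_bound {X : Type} [Fintype X] {T : (X → ℝ) → X → ℝ} {ρ : ℝ} (hρ : 0 < ρ)
    (hT : ∀ f g, ∑ x, f x * T g x = ∑ x, T f x * g x) {u : ℕ → X → ℝ} (u0 : u 0 = 0)
    (u2 : ∀ j x, u (j + 2) x = 2 / ρ * T (u (j + 1)) x - u j x) (j : ℕ)
    (h : ∀ i < j, nsq (T (u i)) ≤ ρ ^ 2 * nsq (u i)) :
    nsq (u j) ≤ ((j : ℝ) + 1) ^ 2 * nsq (u 1) := by
  have en : ∀ j, nsq (u (j + 1)) + nsq (u j) - 2 / ρ * ∑ x, u (j + 1) x * T (u j) x =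
      nsq (u 1) := by
    intro j
    induction j with
    | zero => rw [hT]; simp [u0, nsq]
    | succ j ih =>
      rw [hT] at ih
      rw [← ih]
      simp only [nsq, mul_sum, ← sum_add_distrib, ← sum_sub_distrib]
      refine sum_congr rfl fun x _ => ?_
      rw [u2]
      ring
  have n1 := nsq_nonneg (u 1)
  induction j with
  | zero => simpa [u0, nsq] using n1
  | succ j ih =>
    have h1 := ih fun i hi => h i (by omega)
    have h2 := h j (by omega)
    have h3 := en j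
    set a := u (j + 1)
    set s : X → ℝ := fun x => T (u j) x / ρ with hs
    have h4 : nsq s ≤ nsq (u j) := by
      have : nsq s = nsq (T (u j)) / ρ ^ 2 := by
        simp only [nsq, hs, div_pow, sum_div]
      rw [this, div_le_iff₀ (by positivity)]
      linarith
    have h5 : nsq (a - s) = nsq a + nsq s - 2 / ρ * ∑ x, a x * T (u j) x := by
      simp only [nsq, mul_sum, ← sum_add_distrib, ← sum_sub_distrib, hs, Pi.sub_apply]
      refine sum_congr rfl fun x _ => ?_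
      ring
    have h6 : ((j : ℝ) + 1) * nsq a ≤ (j + 1) * (j + 2) * nsq (a - s) + (j + 2) * nsq s := by
      simp only [nsq, mul_sum, ← sum_add_distrib, Pi.sub_apply]
      refine sum_le_sum fun x _ => ?_
      nlinarith [sq_nonneg (((j : ℝ) + 1) * (a x - s x) - s x)]
    have h7 : nsq (a - s) ≤ nsq (u 1) := by linarith
    have hj0 : (0 : ℝ) < j + 1 := by positivity
    refine le_of_mul_le_mul_left (h6.trans ?_) hj0
    calc ((j : ℝ) + 1) * (j + 2) * nsq (a - s) + (j + 2) * nsq s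
        ≤ (j + 1) * (j + 2) * nsq (u 1) + (j + 2) * ((j + 1) ^ 2 * nsq (u 1)) := by
          gcongr; exact h4.trans h1
      _ = _ := by push_cast; ring

/-- The Chebyshev sequence on states, for the walk operator restricted to `U`. -/
noncomputable def CU (U : Finset V) (ρ : ℝ) (g : St V → ℝ) : ℕ → St V → ℝ
  | 0 => 0
  | 1 => g
  | j + 2 => fun x => 2 / ρ * Tw G U (CU U ρ g (j + 1)) x - CU U ρ g j x

lemma supp_CU {P : ℕ → St V → Prop} (P1 : ∀ i x, P i x → P (i + 1) x)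
    (P2 : ∀ i v w z, G.Adj v w → P i (w, z ∆ {s(v, w)}) → P (i + 1) (v, z)) (ρ : ℝ) {k : ℕ}
    {g : St V → ℝ} (hg : ∀ x, g x ≠ 0 → P k x) (j : ℕ) :
    ∀ x, CU G univ ρ g j x ≠ 0 → P (k + j) x := by
  induction j using Nat.twoStepInduction with
  | zero => intro x h; simp [CU] at h
  | one => exact fun x h => P1 _ _ (hg x h)
  | more j h1 h2 =>
    intro x h
    by_cases a : CU G univ ρ g j x = 0
    · have b : Tw G univ (CU G univ ρ g (j + 1)) x ≠ 0 := fun b => h (by simp [CU, a, b])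
      rw [Tw_univ] at b
      obtain ⟨w, hw, hne⟩ := exists_ne_zero_of_sum_ne_zero b
      exact P2 _ _ _ _ (by simpa using hw) (h2 _ hne)
    · exact P1 _ _ (P1 _ _ (h1 x a))

omit [DecidableRel G.Adj] in
lemma nsq_single (v0 : V) : nsq (Pi.single (v0, ∅) 1 : St V → ℝ) = 1 := by
  simp only [nsq]
  rw [sum_eq_single (v0, ∅)]
  · simp
  · intro y _ hy
    simp [Pi.single_eq_of_ne hy]
  · simp

lemma good_Ch (ρ : ℝ) (v0 : V) (j : ℕ) :
    ∀ x, CU G univ ρ (Pi.single (v0, ∅) 1) j x ≠ 0 → Good G v0 j x := by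
  have := supp_CU G (P := Good G v0) (fun i x h => h.mono G (Nat.le_succ i))
    (fun i v w z => Good.step G) ρ (k := 0) (g := Pi.single (v0, ∅) 1) (fun x h => by
      have : x = (v0, ∅) := by
        by_contra hc
        exact h (Pi.single_eq_of_ne hc _)
      subst this
      refine ⟨by simp, by simp, fun u => ?_⟩
      by_cases k : u = v0 <;> simp [dg, k]) j
  rwa [zero_add] at this

lemma nsq_Ch {v0 : V} {H : ℕ} {ρ : ℝ} (hρ : 0 < ρ) {φ : St V → ℝ} (h0 : ∀ x, 0 < φ x)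
    (hφ : ∀ x, Good G v0 H x → Tw G univ φ x ≤ ρ * φ x) :
    nsq (CU G univ ρ (Pi.single (v0, ∅) 1) H) ≤ ((H : ℝ) + 1) ^ 2 := by
  have := cheb_bound hρ (T_sym G) (u := CU G univ ρ (Pi.single (v0, ∅) 1)) rfl (fun _ _ => rfl) H
    fun i hi => schur G hρ.le h0 hφ hi (good_Ch G ρ v0 i)
  rwa [show CU G univ ρ (Pi.single (v0, ∅) 1) 1 = Pi.single (v0, ∅) 1 from rfl, nsq_single,
    mul_one] at this

/-- The Chebyshev sequence of a matrix. -/
noncomputable def Pm (ρ : ℝ) (S : Matrix V V ℝ) : ℕ → Matrix V V ℝ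
  | 0 => 0
  | 1 => 1
  | j + 2 => (2 / ρ) • (S * Pm ρ S (j + 1)) - Pm ρ S j

lemma Pm_apply (ρ : ℝ) (σ : G.edgeSet → ℤˣ) (v0 : V) {M : Matrix V V ℝ} {g : St V → ℝ}
    (hM : ∀ v, M v v0 = ∑ z, g (v, z) * ∏ e ∈ z, sg G σ e) (j : ℕ) : ∀ v,
    (Pm ρ (signedAdj G σ) j * M) v v0 = ∑ z, CU G univ ρ g j (v, z) * ∏ e ∈ z, sg G σ e := by
  induction j using Nat.twoStepInduction with
  | zero => simp [Pm, CU]
  | one => simpa [Pm, CU] using hM
  | more j h1 h2 =>
    intro v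
    have h3 : (signedAdj G σ * (Pm ρ (signedAdj G σ) (j + 1) * M)) v v0 =
        ∑ z, Tw G univ (CU G univ ρ g (j + 1)) (v, z) * ∏ e ∈ z, sg G σ e := by
      rw [mul_apply]
      simp only [Tw_univ, sum_mul]
      rw [sum_comm (s := univ) (t := G.neighborFinset v),
        ← sum_subset (subset_univ (G.neighborFinset v))]
      · refine sum_congr rfl fun w hw => ?_
        have hadj : G.Adj v w := by simpa using hw
        rw [h2, signedAdj_apply, if_pos hadj, mul_sum, ← sum_symmDiff s(v, w) fun z =>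
          sg G σ s(v, w) * (CU G univ ρ g (j + 1) (w, z) * ∏ e ∈ z, sg G σ e)]
        refine sum_congr rfl fun z _ => ?_
        rw [prod_symmDiff (sg_mul_self G σ _)]
        linear_combination (CU G univ ρ g (j + 1) (w, z ∆ {s(v, w)}) * ∏ e ∈ z, sg G σ e) *
          sg_mul_self G σ s(v, w)
      · intro w _ hw
        rw [signedAdj_apply, if_neg (by simpa using hw), zero_mul]
    simp only [Pm, CU, Matrix.sub_mul, Matrix.smul_mul, Matrix.mul_assoc, Matrix.sub_apply,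
      Matrix.smul_apply, smul_eq_mul, h3, h1, mul_sum, ← sum_sub_distrib]
    refine sum_congr rfl fun z _ => ?_
    ring

lemma one_eq (σ : G.edgeSet → ℤˣ) (v0 v : V) : (1 : Matrix V V ℝ) v v0 =
    ∑ z, (Pi.single (v0, ∅) 1 : St V → ℝ) (v, z) * ∏ e ∈ z, sg G σ e := by
  have := signedAdj_pow G σ v0 0 v
  simpa [Fw] using this

omit [Fintype V] in
lemma prod_mul_prod {σ : Sym2 V → ℝ} (he : ∀ e, σ e * σ e = 1) (z y : Finset (Sym2 V)) :
    (∏ x ∈ z, σ x) * ∏ x ∈ y, σ x = ∏ x ∈ z ∆ y, σ x := by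
  have h1 : ∏ x ∈ z ∆ y, σ x = (∏ x ∈ z \ y, σ x) * ∏ x ∈ y \ z, σ x := by
    rw [symmDiff_def, sup_eq_union, prod_union disjoint_sdiff_sdiff]
  have h2 : (∏ x ∈ z ∩ y, σ x) * ∏ x ∈ z ∩ y, σ x = 1 := by
    rw [← prod_mul_distrib]; simp [he]
  rw [h1, ← prod_inter_mul_prod_sdiff z y, ← prod_inter_mul_prod_sdiff y z, inter_comm y z]
  linear_combination ((∏ x ∈ z \ y, σ x) * ∏ x ∈ y \ z, σ x) * h2

lemma parseval (f : Finset (Sym2 V) → ℝ) (hf : ∀ z, f z ≠ 0 → ∀ e ∈ z, e ∈ G.edgeSet) :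
    ∑ σ : G.edgeSet → ℤˣ, (∑ z, f z * ∏ e ∈ z, sg G σ e) ^ 2 =
      Fintype.card (G.edgeSet → ℤˣ) * ∑ z, f z ^ 2 := by
  have h1 : ∀ σ : G.edgeSet → ℤˣ, (∑ z, f z * ∏ e ∈ z, sg G σ e) ^ 2 =
      ∑ z, ∑ y, f z * f y * ∏ e ∈ z ∆ y, sg G σ e := by
    intro σ
    rw [sq, sum_mul_sum]
    refine sum_congr rfl fun z _ => sum_congr rfl fun y _ => ?_
    rw [← prod_mul_prod (sg_mul_self G σ)]
    ring
  simp only [h1]
  rw [sum_comm, mul_sum]
  refine sum_congr rfl fun z _ => ?_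
  rw [sum_comm, sum_eq_single z]
  · simp [sq]
  · intro y _ hy
    rw [← mul_sum]
    by_cases a : f z = 0
    · simp [a]
    by_cases b : f y = 0
    · simp [b]
    rw [sum_char G, mul_zero]
    · intro e he
      rcases mem_symmDiff.1 he with k | k
      · exact hf z a e k.1
      · exact hf y b e k.1
    · intro k
      exact hy (symmDiff_eq_bot.1 k).symm
  · simp

lemma eigen_le {S : Matrix V V ℝ} {ρ r μ : ℝ} (hρ : 0 < ρ) (hr : 0 < r)
    (hμ : μ ∈ spectrum ℝ S) (h : (r + 1 / r) * ρ ≤ 2 * |μ|) (j m : ℕ) :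
    r ^ (2 * (j * m)) ≤ ∑ v, ∑ w, (Pm ρ S (j + 1) ^ m) v w ^ 2 := by
  rw [← Matrix.spectrum_toLin', ← Module.End.hasEigenvalue_iff_mem_spectrum] at hμ
  obtain ⟨x, hx⟩ := hμ.exists_hasEigenvector
  have h1 : S *ᵥ x = μ • x := by simpa using hx.apply_eq_smul
  have h2 : ∀ k : ℕ, ∃ c c' : ℝ, Pm ρ S k *ᵥ x = c • x ∧ Pm ρ S (k + 1) *ᵥ x = c' • x ∧
      r * |c| ≤ |c'| ∧ r ^ k ≤ |c'| := by
    intro k
    induction k with
    | zero => exact ⟨0, 1, by simp [Pm], by simp [Pm], by simp, by simp⟩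
    | succ k ih =>
      obtain ⟨c, c', a1, a2, a3, a4⟩ := ih
      have a5 : r * |c'| ≤ |2 / ρ * μ * c' - c| := by
        have b1 := abs_sub_abs_le_abs_sub (2 / ρ * μ * c') c
        have b2 : |2 / ρ * μ * c'| = 2 * |μ| / ρ * |c'| := by
          rw [abs_mul, abs_mul, abs_of_pos (by positivity : 0 < 2 / ρ)]; ring
        have b3 : r + 1 / r ≤ 2 * |μ| / ρ := by rwa [le_div_iff₀ hρ]
        have b4 : |c| ≤ 1 / r * |c'| := by
          rw [one_div, ← div_eq_inv_mul, le_div_iff₀ hr]; linarith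
        have b5 := mul_le_mul_of_nonneg_right b3 (abs_nonneg c')
        linarith
      refine ⟨c', 2 / ρ * μ * c' - c, a2, ?_, a5, le_trans ?_ a5⟩
      · simp only [Pm]
        rw [sub_mulVec, smul_mulVec, ← mulVec_mulVec, a2, a1, mulVec_smul, h1, smul_smul,
          smul_smul, sub_smul]
        congr 2
        ring
      · rw [pow_succ']
        gcongr
  obtain ⟨-, c, -, a2, -, a4⟩ := h2 j
  have a5 : ∀ k : ℕ, (Pm ρ S (j + 1) ^ k) *ᵥ x = c ^ k • x := by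
    intro k
    induction k with
    | zero => simp
    | succ k ih => rw [pow_succ', ← mulVec_mulVec, ih, mulVec_smul, a2, smul_smul, pow_succ]
  have h3 : 0 < ∑ v, x v ^ 2 := by
    obtain ⟨v, hv⟩ := Function.ne_iff.1 hx.2
    exact sum_pos' (fun _ _ => sq_nonneg _) ⟨v, mem_univ _, sq_pos_of_ne_zero hv⟩
  have h4 : r ^ (2 * (j * m)) ≤ (c ^ m) ^ 2 := by
    rw [mul_comm, pow_mul, pow_mul, ← sq_abs (c ^ m), abs_pow]
    gcongr
  refine h4.trans (le_of_mul_le_mul_right ?_ h3)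
  rw [mul_sum, sum_mul]
  refine sum_le_sum fun v _ => ?_
  have h5 : (c ^ m) ^ 2 * x v ^ 2 = (∑ w, (Pm ρ S (j + 1) ^ m) v w * x w) ^ 2 := by
    have := congrFun (a5 m) v
    simp only [mulVec, dotProduct, Pi.smul_apply, smul_eq_mul] at this
    rw [this]; ring
  rw [h5]
  exact sum_mul_sq_le_sq_mul_sq _ _ _

open Classical in
theorem tail_gen {ρ r t B : ℝ} (hρ : 0 < ρ) (hr : 0 < r) (ht : (r + 1 / r) * ρ ≤ 2 * t) (j m : ℕ)
    (F : V → St V → ℝ) (F1 : ∀ σ v0 v, (Pm ρ (signedAdj G σ) (j + 1) ^ m) v v0 =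
      ∑ z, F v0 (v, z) * ∏ e ∈ z, sg G σ e)
    (F2 : ∀ v0 x, F v0 x ≠ 0 → ∀ e ∈ x.2, e ∈ G.edgeSet) (F3 : ∀ v0, nsq (F v0) ≤ B) :
    ((univ.filter fun σ : G.edgeSet → ℤˣ =>
        ∃ μ ∈ spectrum ℝ (signedAdj G σ), t ≤ |μ|).card : ℝ) * r ^ (2 * (j * m)) ≤
      Fintype.card (G.edgeSet → ℤˣ) * (Fintype.card V * B) := by
  set tr : (G.edgeSet → ℤˣ) → ℝ := fun σ =>
    ∑ v, ∑ w, (Pm ρ (signedAdj G σ) (j + 1) ^ m) v w ^ 2 with htr
  have h0 : ∀ σ, 0 ≤ tr σ := fun σ =>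
    sum_nonneg fun _ _ => sum_nonneg fun _ _ => sq_nonneg _
  calc _ = ∑ σ ∈ univ.filter (fun σ : G.edgeSet → ℤˣ =>
        ∃ μ ∈ spectrum ℝ (signedAdj G σ), t ≤ |μ|), r ^ (2 * (j * m)) := by simp
    _ ≤ ∑ σ ∈ univ.filter (fun σ : G.edgeSet → ℤˣ =>
        ∃ μ ∈ spectrum ℝ (signedAdj G σ), t ≤ |μ|), tr σ := by
        refine sum_le_sum fun σ hσ => ?_
        obtain ⟨μ, hμ, hμt⟩ := (mem_filter.1 hσ).2
        exact eigen_le hρ hr hμ (by linarith) j m
    _ ≤ ∑ σ, tr σ := sum_le_sum_of_subset_of_nonneg (filter_subset _ _) fun σ _ _ => h0 σ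
    _ = ∑ w, Fintype.card (G.edgeSet → ℤˣ) * nsq (F w) := by
        simp only [htr]
        have e : ∀ σ : G.edgeSet → ℤˣ, ∑ v, ∑ w, (Pm ρ (signedAdj G σ) (j + 1) ^ m) v w ^ 2 =
            ∑ w, ∑ v, (Pm ρ (signedAdj G σ) (j + 1) ^ m) v w ^ 2 := fun σ => sum_comm
        simp only [e]
        rw [sum_comm]
        refine sum_congr rfl fun w _ => ?_
        rw [sum_comm, nsq, Fintype.sum_prod_type, mul_sum]
        refine sum_congr rfl fun v _ => ?_
        simp only [F1]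
        exact parseval G _ fun z hz => F2 w _ hz
    _ ≤ ∑ _v : V, Fintype.card (G.edgeSet → ℤˣ) * B :=
        sum_le_sum fun v _ => mul_le_mul_of_nonneg_left (F3 v) (Nat.cast_nonneg _)
    _ = _ := by simp; ring

open Classical in
theorem tail {ρ r t : ℝ} (hρ : 0 < ρ) (hr : 0 < r) (ht : (r + 1 / r) * ρ ≤ 2 * t) (j : ℕ)
    (h : ∀ v0, ∃ φ : St V → ℝ, (∀ x, 0 < φ x) ∧
      ∀ x, Good G v0 (j + 1) x → Tw G univ φ x ≤ ρ * φ x) :
    ((univ.filter fun σ : G.edgeSet → ℤˣ =>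
        ∃ μ ∈ spectrum ℝ (signedAdj G σ), t ≤ |μ|).card : ℝ) * r ^ (2 * j) ≤
      Fintype.card (G.edgeSet → ℤˣ) * (Fintype.card V * ((j : ℝ) + 2) ^ 2) := by
  have := tail_gen G (B := ((j : ℝ) + 2) ^ 2) hρ hr ht j 1
    (fun v0 => CU G univ ρ (Pi.single (v0, ∅) 1) (j + 1))
    (fun σ v0 v => by
      have := Pm_apply G ρ σ v0 (one_eq G σ v0) (j + 1) v
      rwa [Matrix.mul_one, ← pow_one (Pm ρ (signedAdj G σ) (j + 1))] at this)
    (fun v0 x hx => (good_Ch G ρ v0 (j + 1) x hx).1) fun v0 => by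
      obtain ⟨φ, a1, a2⟩ := h v0
      refine (nsq_Ch G hρ a1 a2).trans (le_of_eq ?_)
      push_cast; ring
  rwa [mul_one] at this

end Pool.Agent.MP_df0aa7_co.AD
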