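import Mathlib
import Pool.Agent.MP_df0aa7_co.AD.Mach

/-!
Localisation to balls for Chebyshev polynomials of the walk operator.
-/

set_option autoImplicit false

open Finset Matrix
open scoped symmDiff

namespace Pool.Agent.MP_df0aa7_co.AD

variable {V : Type} [Fintype V] [DecidableEq V] (G : SimpleGraph V) [DecidableRel G.Adj]

lemma TU_sym (U : Finset V) (f g : St V → ℝ) :
    ∑ x, f x * Tw G U g x = ∑ x, Tw G U f x * g x := by
  have e : ∀ (f : St V → ℝ) x, Tw G U f x =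
      (if x.1 ∈ U then 1 else 0) * Tw G univ (fun y => (if y.1 ∈ U then 1 else 0) * f y) x := by
    intro f x
    rw [Tw_univ, Tw]
    split_ifs
    · rw [one_mul, sum_filter]
      refine sum_congr rfl fun w _ => ?_
      split_ifs <;> simp
    · simp
  have := T_sym G (fun y => (if y.1 ∈ U then 1 else 0) * f y)
    fun y => (if y.1 ∈ U then 1 else 0) * g y
  simp only [e f, e g]
  refine Eq.trans (sum_congr rfl fun x _ => by ring) (this.trans (sum_congr rfl fun x _ => by ring))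

lemma ball_mono (k : ℕ) (v : V) : ball G k v ⊆ ball G (k + 1) v :=
  fun _ hu => (mem_ball_succ G).2 ⟨v, Or.inl rfl, hu⟩

lemma CU_local {U : Finset V} (ρ : ℝ) (g : St V → ℝ) (l : ℕ) :
    ∀ x : St V, ball G l x.1 ⊆ U → CU G univ ρ g l x = CU G U ρ g l x := by
  induction l using Nat.twoStepInduction with
  | zero => intro x _; rfl
  | one => intro x _; rfl
  | more l h1 h2 =>
    intro x h
    simp only [CU]
    rw [h1 x (((ball_mono G _ _).trans (ball_mono G _ _)).trans h), Tw_univ, Tw,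
      if_pos (h (self_mem_ball G _ _)), filter_true_of_mem]
    · congr 2
      refine sum_congr rfl fun w hw => h2 _ ?_
      exact (ball_subset_succ_of_adj G (by simpa using hw)).trans h
    · intro w hw
      exact h (ball_subset_succ_of_adj G (by simpa using hw) (self_mem_ball G _ _))

lemma CU_congr (ρ : ℝ) {g g' : St V → ℝ} {e : Sym2 V} {c : V} (hc : c ∈ e)
    (hg : ∀ y : St V, e ∈ y.2 → g y = g' y) (l : ℕ) : ∀ x : St V, e ∈ x.2 →
      c ∉ ball G l x.1 → CU G univ ρ g l x = CU G univ ρ g' l x := by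
  induction l using Nat.twoStepInduction with
  | zero => intro x _ _; rfl
  | one => exact fun x hx _ => hg x hx
  | more l h1 h2 =>
    intro x hx h
    simp only [CU]
    rw [h1 x hx fun k => h (ball_mono G _ _ (ball_mono G _ _ k)), Tw_univ, Tw_univ]
    congr 2
    refine sum_congr rfl fun w hw => ?_
    have hadj : G.Adj x.1 w := by simpa using hw
    have hw' : ball G (l + 1) w ⊆ ball G (l + 2) x.1 := ball_subset_succ_of_adj G hadj
    refine h2 _ ?_ fun hc' => h (hw' hc')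
    have hne : e ≠ s(x.1, w) := by
      rintro rfl
      rcases Sym2.mem_iff.1 hc with rfl | rfl
      · exact h (self_mem_ball G _ _)
      · exact h (hw' (self_mem_ball G _ _))
    simp [mem_symmDiff, hx, hne]

omit [Fintype V] [DecidableRel G.Adj] in
lemma inv_step (v0 : V) (j : ℕ) (v w : V) (z : Finset (Sym2 V)) (hadj : G.Adj v w)
    (h : Inv G v0 j (w, z ∆ {s(v, w)})) : Inv G v0 (j + 1) (v, z) := by
  obtain ⟨h1, h2, h3⟩ := h
  have e : z = (z ∆ {s(v, w)}) ∆ {s(v, w)} := (symmDiff_symmDiff_cancel_right _ _).symm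
  refine ⟨fun e' he' => ?_, ?_, fun τ hτ => ?_⟩
  · by_cases hc : e' = s(v, w)
    · rw [hc]; exact hadj
    · exact h1 e' (by simp [mem_symmDiff, hc]; exact he')
  · change z.card ≤ j + 1
    rw [e]
    exact (card_symmDiff_le _ _).trans (Nat.succ_le_succ h2)
  · have e2 : edgeSign τ s(v, w) = τ v * τ w := rfl
    change ∏ e ∈ z, edgeSign τ e = τ v * τ v0
    rw [e, prod_symmDiff, h3 τ hτ, e2]
    · linear_combination (τ v * τ v0) * hτ w
    · rw [e2]
      linear_combination (τ w * τ w) * hτ v + hτ w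

lemma centre (ρ : ℝ) (v0 : V) (j l : ℕ) (x : St V) (hx : Inv G v0 j x) (g : St V → ℝ) :
    ∃ c, CU G univ ρ g l x =
      CU G (ball G (2 * l + 1) c) ρ (fun y => if c ∈ cen v0 y then g y else 0) l x := by
  have key : ∀ c, c ∈ ball G (l + 1) x.1 → ball G l x.1 ⊆ ball G (2 * l + 1) c := by
    intro c hc u hu
    have := ball_trans G (ball_symm G hc) hu
    rwa [show l + (l + 1) = 2 * l + 1 by ring] at this
  by_cases h0 : v0 ∈ ball G l x.1
  · refine ⟨v0, ?_⟩
    rw [CU_local G ρ g l x (key v0 (ball_mono G _ _ h0))]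
    simp [cen]
  · set τ : V → ℝ := fun v => if v ∈ ball G l x.1 then -1 else 1 with hτ
    have hτ1 : ∀ v, τ v * τ v = 1 := by
      intro v; simp only [hτ]; split_ifs <;> norm_num
    have h1 := hx.2.2 τ hτ1
    have h2 : τ x.1 * τ v0 = -1 := by simp [hτ, self_mem_ball, h0]
    have h3 : ∃ e ∈ x.2, edgeSign τ e ≠ 1 := by
      by_contra hc
      push Not at hc
      rw [prod_eq_one hc, h2] at h1
      norm_num at h1
    obtain ⟨e, he, hne⟩ := h3
    have h4 : ∃ c ∈ e, c ∉ ball G l x.1 ∧ c ∈ ball G (l + 1) x.1 := by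
      have hE := hx.1 e he
      induction e using Sym2.ind with
      | _ a b =>
        have hadj : G.Adj a b := hE
        have e2 : edgeSign τ s(a, b) = τ a * τ b := rfl
        rw [e2] at hne
        by_cases ha : a ∈ ball G l x.1 <;> by_cases hb : b ∈ ball G l x.1
        · simp [hτ, ha, hb] at hne
        · refine ⟨b, by simp, hb, ?_⟩
          have := ball_trans G ha (mem_ball_one G (Or.inr hadj))
          rwa [add_comm] at this
        · refine ⟨a, by simp, ha, ?_⟩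
          have := ball_trans G hb (mem_ball_one G (Or.inr hadj.symm))
          rwa [add_comm] at this
        · simp [hτ, ha, hb] at hne
    obtain ⟨c, hce, hc1, hc2⟩ := h4
    refine ⟨c, ?_⟩
    rw [← CU_local G ρ _ l x (key c hc2)]
    refine CU_congr G ρ hce (fun y hy => ?_) l x he hc1
    rw [if_pos]
    exact mem_insert_of_mem (mem_biUnion.2 ⟨e, hy, Sym2.mem_toFinset.2 hce⟩)

lemma inv_CU (ρ : ℝ) (v0 : V) {j : ℕ} {g : St V → ℝ} (hg : ∀ x, g x ≠ 0 → Inv G v0 j x) (l : ℕ) :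
    ∀ x, CU G univ ρ g l x ≠ 0 → Inv G v0 (j + l) x :=
  supp_CU G (P := Inv G v0) (fun _ _ h => ⟨h.1, h.2.1.trans (Nat.le_succ _), h.2.2⟩)
    (inv_step G v0) ρ hg l

lemma nsq_CU_step {ρ : ℝ} (hρ : 0 < ρ) (l : ℕ)
    (h : ∀ c, ∀ a : V → ℝ, bil G (ball G (2 * l + 1) c) a a ≤ ρ * nsq a) (v0 : V) {j : ℕ}
    {g : St V → ℝ} (hg : ∀ x, g x ≠ 0 → Inv G v0 j x) :
    nsq (CU G univ ρ g l) ≤ (2 * j + 1) * ((l : ℝ) + 1) ^ 2 * nsq g := by
  set gc : V → St V → ℝ := fun c y => if c ∈ cen v0 y then g y else 0 with hgc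
  have h1 : ∀ x, CU G univ ρ g l x ^ 2 ≤
      ∑ c, CU G (ball G (2 * l + 1) c) ρ (gc c) l x ^ 2 := by
    intro x
    by_cases hx : CU G univ ρ g l x = 0
    · rw [hx]
      simpa using sum_nonneg fun _ _ => sq_nonneg _
    · obtain ⟨c, hc⟩ := centre G ρ v0 _ l x (inv_CU G ρ v0 hg l x hx) g
      rw [hc]
      exact single_le_sum (f := fun c => CU G (ball G (2 * l + 1) c) ρ (gc c) l x ^ 2)
        (fun _ _ => sq_nonneg _) (mem_univ c)
  have h2 : ∑ c, nsq (gc c) ≤ (2 * j + 1) * nsq g := by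
    simp only [nsq]
    rw [sum_comm, mul_sum]
    refine sum_le_sum fun y _ => ?_
    have e : ∑ c, gc c y ^ 2 = (cen v0 y).card * g y ^ 2 := by
      simp only [hgc, ite_pow]
      rw [← sum_filter_add_sum_filter_not univ (· ∈ cen v0 y)]
      rw [sum_congr rfl fun c hc => if_pos (mem_filter.1 hc).2,
        sum_congr rfl fun c hc => if_neg (mem_filter.1 hc).2]
      simp
    rw [e]
    by_cases hy : g y = 0
    · simp [hy]
    · have h3 := (hg y hy).2.1
      have h4 : (cen v0 y).card ≤ 2 * j + 1 := (card_cen v0 y).trans (by omega)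
      have h5 : ((cen v0 y).card : ℝ) ≤ 2 * j + 1 := by exact_mod_cast h4
      gcongr
  calc nsq (CU G univ ρ g l)
      ≤ ∑ x, ∑ c, CU G (ball G (2 * l + 1) c) ρ (gc c) l x ^ 2 := sum_le_sum fun x _ => h1 x
    _ = ∑ c, nsq (CU G (ball G (2 * l + 1) c) ρ (gc c) l) := sum_comm
    _ ≤ ∑ c, ((l : ℝ) + 1) ^ 2 * nsq (gc c) := sum_le_sum fun c _ =>
        cheb_bound hρ (TU_sym G _) (u := CU G (ball G (2 * l + 1) c) ρ (gc c)) rfl
          (fun _ _ => rfl) l fun _ _ => nsq_Tw_le G hρ (h c) _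
    _ = ((l : ℝ) + 1) ^ 2 * ∑ c, nsq (gc c) := by rw [mul_sum]
    _ ≤ ((l : ℝ) + 1) ^ 2 * ((2 * j + 1) * nsq g) := by gcongr
    _ = _ := by ring

open Classical in
theorem tail_loc {ρ r t : ℝ} (hρ : 0 < ρ) (hr : 0 < r) (ht : (r + 1 / r) * ρ ≤ 2 * t) (j m : ℕ)
    (h : ∀ c, ∀ a : V → ℝ, bil G (ball G (2 * (j + 1) + 1) c) a a ≤ ρ * nsq a) :
    ((univ.filter fun σ : G.edgeSet → ℤˣ =>
        ∃ μ ∈ spectrum ℝ (signedAdj G σ), t ≤ |μ|).card : ℝ) * r ^ (2 * (j * m)) ≤
      Fintype.card (G.edgeSet → ℤˣ) *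
        (Fintype.card V * ((2 * (m * (j + 1)) + 1) * ((j : ℝ) + 2) ^ 2) ^ m) := by
  have key : ∀ v0, ∀ i ≤ m, ∃ F : St V → ℝ,
      (∀ σ v, (Pm ρ (signedAdj G σ) (j + 1) ^ i) v v0 = ∑ z, F (v, z) * ∏ e ∈ z, sg G σ e) ∧
      (∀ x, F x ≠ 0 → Inv G v0 (i * (j + 1)) x) ∧
      nsq F ≤ ((2 * (m * (j + 1)) + 1) * ((j : ℝ) + 2) ^ 2) ^ i := by
    intro v0 i
    induction i with
    | zero =>
      intro _
      refine ⟨Pi.single (v0, ∅) 1, fun σ v => ?_, fun x hx => ?_, ?_⟩
      · rw [pow_zero]; exact one_eq G σ v0 v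
      · rw [zero_mul]; exact inv_of_Fw G v0 0 x hx
      · rw [nsq_single, pow_zero]
    | succ i ih =>
      intro hi
      obtain ⟨F, a1, a2, a3⟩ := ih (by omega)
      refine ⟨CU G univ ρ F (j + 1), fun σ v => ?_, fun x hx => ?_, ?_⟩
      · rw [pow_succ']; exact Pm_apply G ρ σ v0 (a1 σ) (j + 1) v
      · rw [add_mul, one_mul]; exact inv_CU G ρ v0 a2 (j + 1) x hx
      · refine (nsq_CU_step G hρ (j + 1) h v0 a2).trans ?_
        have b1 : (i : ℝ) ≤ m := by exact_mod_cast (by omega : i ≤ m)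
        have b2 := nsq_nonneg F
        rw [pow_succ' _ i]
        push_cast
        rw [add_assoc (j : ℝ), one_add_one_eq_two]
        gcongr
  choose F F1 F2 F3 using fun v0 => key v0 m le_rfl
  exact tail_gen G hρ hr ht j m F (fun σ v0 v => F1 v0 σ v) (fun v0 x hx => (F2 v0 x hx).1) F3

end Pool.Agent.MP_df0aa7_co.AD
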