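import Mathlib
import Pool.Agent.MP_df0aa7_co.AD.Mach

/-!
The weight for the Schur test.
-/

set_option autoImplicit false

open Finset Matrix
open scoped symmDiff

namespace Pool.Agent.MP_df0aa7_co.AD

variable {V : Type} [Fintype V] [DecidableEq V] (G : SimpleGraph V) [DecidableRel G.Adj]

/-- The weight as a function of the numbers of visits. -/
noncomputable def Ψ (b : ℝ) (K : Matrix V V ℝ) (N : V → ℕ) : ℝ :=
  (∏ u, ∏ i ∈ range (N u), b * (2 * (i : ℝ) + 1)) *
    Real.exp ((fun u => (N u : ℝ)) ⬝ᵥ K *ᵥ fun u => (N u : ℝ))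

omit [DecidableEq V] in
lemma Ψ_pos {b : ℝ} (hb : 0 < b) (K : Matrix V V ℝ) (N : V → ℕ) : 0 < Ψ b K N :=
  mul_pos (prod_pos fun _ _ => prod_pos fun _ _ => by positivity) (Real.exp_pos _)

lemma Ψ_add (b : ℝ) {K : Matrix V V ℝ} (hK : Kᵀ = K) (N M : V → ℕ) (w : V)
    (h : ∀ u, M u = N u + if u = w then 1 else 0) :
    Ψ b K M = Ψ b K N * (b * (2 * (N w : ℝ) + 1)) *
      Real.exp (2 * (K *ᵥ fun u => (N u : ℝ)) w + K w w) := by
  have h1 : (fun u => (M u : ℝ)) = (fun u => (N u : ℝ)) + Pi.single w 1 := by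
    funext u
    by_cases k : u = w
    · subst k; simp [h]
    · simp [h, k]
  have h2 : ∏ u, ∏ i ∈ range (M u), b * (2 * (i : ℝ) + 1) =
      (∏ u, ∏ i ∈ range (N u), b * (2 * (i : ℝ) + 1)) * (b * (2 * (N w : ℝ) + 1)) := by
    rw [← mul_prod_erase univ _ (mem_univ w),
      ← mul_prod_erase univ (fun u => ∏ i ∈ range (N u), b * (2 * (i : ℝ) + 1)) (mem_univ w),
      h w, if_pos rfl, prod_range_succ]
    have : ∏ u ∈ univ.erase w, ∏ i ∈ range (M u), b * (2 * (i : ℝ) + 1) =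
        ∏ u ∈ univ.erase w, ∏ i ∈ range (N u), b * (2 * (i : ℝ) + 1) := by
      refine prod_congr rfl fun u hu => ?_
      rw [h u, if_neg (ne_of_mem_erase hu), add_zero]
    rw [this]
    ring
  have h3 : (fun u => (N u : ℝ)) ⬝ᵥ K *ᵥ Pi.single w 1 = (K *ᵥ fun u => (N u : ℝ)) w := by
    rw [dotProduct_mulVec, ← mulVec_transpose, hK, dotProduct_single, mul_one]
  unfold Ψ
  rw [h1, h2, mulVec_add, add_dotProduct, dotProduct_add, dotProduct_add, h3, single_dotProduct,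
    single_dotProduct]
  have h4 : (K *ᵥ Pi.single w (1 : ℝ)) w = K w w := by simp
  rw [h4, one_mul, one_mul, add_assoc, ← add_assoc ((K *ᵥ fun u => (N u : ℝ)) w), ← two_mul,
    Real.exp_add]
  ring

/-- Numbers of visits. -/
def Nv (v0 : V) (z : Finset (Sym2 V)) (u : V) : ℕ := (dg v0 z u + 1) / 2

lemma sum_Nv (v0 : V) (z : Finset (Sym2 V)) : ∑ u, Nv v0 z u ≤ 2 * z.card + 1 := by
  have h1 : ∑ u, Nv v0 z u ≤ ∑ u, dg v0 z u := sum_le_sum fun u _ => by unfold Nv; omega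
  refine h1.trans ?_
  simp only [dg, sum_add_distrib, sum_ite_eq', mem_univ, if_true, card_filter]
  rw [sum_comm, mul_comm, ← smul_eq_mul, ← sum_const]
  refine Nat.add_le_add_right (sum_le_sum fun e _ => ?_) 1
  rw [← card_filter]
  induction e using Sym2.ind with
  | _ a b =>
    refine le_trans (card_le_card (t := {a, b}) fun u hu => ?_) card_le_two
    simpa using hu

lemma ar_down {a c : ℕ} {p q : Prop} [Decidable p] [Decidable q] (hn : ¬ (p ∧ q))
    (h1 : a = c + if p ∨ q then 1 else 0) (h2 : a % 2 = 1 ↔ p) :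
    (c + 1) / 2 = (a + 1) / 2 - if p then 1 else 0 := by
  by_cases x : p <;> by_cases y : q <;> simp_all <;> omega

lemma ar_up {a c : ℕ} {p q : Prop} [Decidable p] [Decidable q] (hn : ¬ (p ∧ q))
    (h1 : c = a + if p ∨ q then 1 else 0) (h2 : a % 2 = 1 ↔ p) :
    (c + 1) / 2 = (a + 1) / 2 + if q then 1 else 0 := by
  by_cases x : p <;> by_cases y : q <;> simp_all <;> omega

lemma step_le {b : ℝ} (hb : 0 < b) {K : Matrix V V ℝ} (hK : Kᵀ = K) {v0 : V} {j : ℕ}
    {v : V} {z : Finset (Sym2 V)} (h : Good G v0 j (v, z)) :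
    Tw G univ (fun y => Ψ b K (Nv v0 y.2)) (v, z) ≤ Ψ b K (Nv v0 z) *
      (1 / b * Real.exp (K v v - 2 * (K *ᵥ fun u => (Nv v0 z u : ℝ)) v) +
        b * ∑ w ∈ G.neighborFinset v, (2 * (Nv v0 z w : ℝ) + 1) *
          Real.exp (2 * (K *ᵥ fun u => (Nv v0 z u : ℝ)) w + K w w)) := by
  obtain ⟨-, -, h3⟩ := h
  simp only [Nat.odd_iff] at h3
  have hv := (h3 v).2 rfl
  set N := Nv v0 z with hN
  set M : V → ℕ := fun u => N u - if u = v then 1 else 0 with hM
  have hMN : ∀ u, N u = M u + if u = v then 1 else 0 := by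
    intro u
    by_cases k : u = v
    · subst k
      simp only [hM, hN, Nv, if_true]
      omega
    · simp [hM, k]
  have hP := Ψ_pos hb K N
  rw [Tw_univ, ← sum_filter_add_sum_filter_not _ fun w => s(v, w) ∈ z, mul_add]
  refine add_le_add ?_ ?_
  · have e1 : ∀ w ∈ (G.neighborFinset v).filter fun w => s(v, w) ∈ z,
        Ψ b K (Nv v0 (z ∆ {s(v, w)})) = Ψ b K M := by
      intro w hw
      obtain ⟨a1, a2⟩ := mem_filter.1 hw
      have hne : v ≠ w := (by simpa using a1 : G.Adj v w).ne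
      congr 1
      funext u
      have a3 := dg_erase v0 a2 u
      have a4 := h3 u
      simp only [Sym2.mem_iff] at a3
      exact ar_down (fun k => hne (k.1.symm.trans k.2)) a3 a4
    rw [sum_congr rfl e1, sum_const, nsmul_eq_mul]
    have e2 : ((G.neighborFinset v).filter fun w => s(v, w) ∈ z).card ≤ 2 * M v + 1 := by
      have a1 : ((G.neighborFinset v).filter fun w => s(v, w) ∈ z).card ≤
          (z.filter (v ∈ ·)).card := by
        refine card_le_card_of_injOn (fun w => s(v, w)) (fun w hw => ?_) fun w _ w' _ e => ?_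
        · simp only [coe_filter, Set.mem_ofPred_eq] at hw ⊢
          exact ⟨hw.2, Sym2.mem_mk_left _ _⟩
        · exact Sym2.congr_right.1 e
      have a2 : (z.filter (v ∈ ·)).card ≤ dg v0 z v := Nat.le_add_right _ _
      simp only [hM, hN, Nv, if_true] at a1 a2 ⊢
      omega
    have e3 := Ψ_add b hK M N v hMN
    have e4 : (K *ᵥ fun u => (N u : ℝ)) v = (K *ᵥ fun u => (M u : ℝ)) v + K v v := by
      have : (fun u => (N u : ℝ)) = (fun u => (M u : ℝ)) + Pi.single v 1 := by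
        funext u
        by_cases k : u = v
        · subst k; simp [hMN u]
        · simp [hMN u, k]
      rw [this, mulVec_add]
      simp
    have e5 : Ψ b K N * (1 / b * Real.exp (K v v - 2 * (K *ᵥ fun u => (N u : ℝ)) v)) =
        (2 * (M v : ℝ) + 1) * Ψ b K M := by
      rw [e3, e4]
      have : Real.exp (2 * (K *ᵥ fun u => (M u : ℝ)) v + K v v) *
          Real.exp (K v v - 2 * ((K *ᵥ fun u => (M u : ℝ)) v + K v v)) = 1 := by
        rw [← Real.exp_add, ← Real.exp_zero]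
        congr 1
        ring
      field_simp
      linear_combination Ψ b K M * this
    rw [e5]
    refine mul_le_mul_of_nonneg_right ?_ (Ψ_pos hb K M).le
    exact_mod_cast e2
  · rw [mul_sum, mul_sum]
    refine le_trans (le_of_eq (sum_congr rfl fun w hw => ?_))
      (sum_le_sum_of_subset_of_nonneg (filter_subset (fun w => ¬ s(v, w) ∈ z) _)
        fun w _ _ => by positivity)
    obtain ⟨a1, a2⟩ := mem_filter.1 hw
    have hne : v ≠ w := (by simpa using a1 : G.Adj v w).ne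
    rw [Ψ_add b hK N (Nv v0 (z ∆ {s(v, w)})) w]
    · ring
    · intro u
      have a3 := dg_insert v0 a2 u
      have a4 := h3 u
      simp only [Sym2.mem_iff] at a3
      exact ar_up (fun k => hne (k.1.symm.trans k.2)) a3 a4

lemma exp_le_two {x : ℝ} (h0 : 0 ≤ x) (h1 : x ≤ 1) : Real.exp x ≤ 1 + 2 * x := by
  have := Real.abs_exp_sub_one_sub_id_le (x := x) (by rwa [abs_of_nonneg h0])
  have := (abs_le.1 this).2
  nlinarith

lemma exp_neg_le {x : ℝ} (h0 : 0 ≤ x) (h1 : x ≤ 1) : Real.exp (-x) ≤ 1 - x / 2 := by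
  rw [Real.exp_neg, inv_le_comm₀ (Real.exp_pos _) (by linarith)]
  refine le_trans ?_ (Real.add_one_le_exp x)
  rw [inv_le_iff_one_le_mul₀ (by linarith)]
  nlinarith

omit [DecidableEq V] in
lemma adj_le {d : ℕ} (hd : G.IsRegularOfDegree d) {f : V → ℝ} {c : ℝ} (h : ∀ u, f u ≤ c) (v : V) :
    (G.adjMatrix ℝ *ᵥ f) v ≤ d * c := by
  rw [SimpleGraph.adjMatrix_mulVec_apply]
  refine (sum_le_card_nsmul _ _ c fun u _ => h u).trans ?_
  rw [SimpleGraph.card_neighborFinset_eq_degree, hd v, nsmul_eq_mul]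

omit [DecidableEq V] in
lemma adj_nonneg {f : V → ℝ} (h : ∀ u, 0 ≤ f u) (v : V) : 0 ≤ (G.adjMatrix ℝ *ᵥ f) v := by
  rw [SimpleGraph.adjMatrix_mulVec_apply]
  exact sum_nonneg fun u _ => h u

omit [DecidableEq V] in
lemma adj_le_sum {f : V → ℝ} (h : ∀ u, 0 ≤ f u) (v : V) : (G.adjMatrix ℝ *ᵥ f) v ≤ ∑ u, f u := by
  rw [SimpleGraph.adjMatrix_mulVec_apply]
  exact sum_le_sum_of_subset_of_nonneg (subset_univ _) fun u _ _ => h u

theorem weight {d : ℕ} (hd : G.IsRegularOfDegree d) {τ : ℝ} (hτ0 : 0 ≤ τ)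
    (hτ : ∀ f : V → ℝ, (∀ u, 0 ≤ f u) → ∀ v,
      (G.adjMatrix ℝ *ᵥ (G.adjMatrix ℝ *ᵥ (G.adjMatrix ℝ *ᵥ f))) v ≤ τ * d ^ 2 * ∑ u, f u)
    {H : ℕ} (hH : 60 * (2 * H + 1) ≤ d) (v0 : V) :
    ∃ φ : St V → ℝ, (∀ x, 0 < φ x) ∧ ∀ x, Good G v0 H x → Tw G univ φ x ≤
      √d * (1 + 48 / d) * (2 + 96 * τ * (2 * H + 1) / d) * φ x := by
  set A := G.adjMatrix ℝ with hA
  have hdR : (60 : ℝ) * (2 * H + 1) ≤ d := by exact_mod_cast hH
  have hH0 : (0 : ℝ) ≤ H := Nat.cast_nonneg _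
  have hd0 : (0 : ℝ) < d := by linarith
  have hs : 0 < √(d : ℝ) := Real.sqrt_pos.2 hd0
  have hss : √(d : ℝ) * √(d : ℝ) = d := Real.mul_self_sqrt hd0.le
  set K : Matrix V V ℝ := (6 / (d : ℝ)) • A + (24 / (d : ℝ) ^ 2) • (A * A) with hKd
  have hK : Kᵀ = K := by
    simp [hKd, hA, transpose_add, transpose_smul, transpose_mul]
  have hKK : ∀ w, K w w = 24 / d := by
    intro w
    simp only [hKd, hA, Matrix.add_apply, Matrix.smul_apply, smul_eq_mul,
      SimpleGraph.adjMatrix_mul_self_apply_self, hd w]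
    simp
    field_simp
  refine ⟨fun y => Ψ (1 / √d) K (Nv v0 y.2), fun x => Ψ_pos (by positivity) _ _, ?_⟩
  rintro ⟨v, z⟩ hx
  refine (step_le G (by positivity) hK hx).trans ?_
  rw [mul_comm]
  refine mul_le_mul_of_nonneg_right ?_ (Ψ_pos (by positivity) _ _).le
  set N : V → ℝ := fun u => (Nv v0 z u : ℝ) with hN
  have hN0 : ∀ u, 0 ≤ N u := fun u => Nat.cast_nonneg _
  have hN1 : ∑ u, N u ≤ 2 * H + 1 := by
    have h1 := sum_Nv v0 z
    have h2 : z.card ≤ H := hx.2.1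
    have h3 : ∑ u, Nv v0 z u ≤ 2 * H + 1 := by omega
    simp only [hN]
    exact_mod_cast h3
  set p := A *ᵥ N with hp
  set q := A *ᵥ p with hq
  have p0 : ∀ w, 0 ≤ p w := adj_nonneg G hN0
  have p1 : ∀ w, p w ≤ 2 * H + 1 := fun w => (adj_le_sum G hN0 w).trans hN1
  have q0 : ∀ w, 0 ≤ q w := adj_nonneg G p0
  have q1 : ∀ w, q w ≤ d * (2 * H + 1) := adj_le G hd p1
  have r1 : (A *ᵥ q) v ≤ τ * d ^ 2 * (2 * H + 1) := (hτ N hN0 v).trans (by gcongr)
  set x : V → ℝ := fun w => 12 / d * p w + 48 / d ^ 2 * q w with hxd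
  have hx' : ∀ w, 2 * (K *ᵥ N) w = x w := by
    intro w
    simp only [hKd, add_mulVec, smul_mulVec, ← mulVec_mulVec, Pi.add_apply, Pi.smul_apply,
      smul_eq_mul, hxd, hq, hp]
    ring
  have x0 : ∀ w, 0 ≤ x w := fun w => by
    have := p0 w
    have := q0 w
    positivity
  have x1 : ∀ w, x w ≤ 1 := fun w => by
    calc x w ≤ 12 / d * (2 * H + 1) + 48 / d ^ 2 * (d * (2 * H + 1)) := by
          simp only [hxd]
          gcongr
          · exact p1 w
          · exact q1 w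
      _ = 60 * (2 * H + 1) / d := by field_simp; ring
      _ ≤ 1 := by rw [div_le_one hd0]; exact hdR
  have c1 : Real.exp (24 / d) ≤ 1 + 48 / d := by
    refine (exp_le_two (by positivity) ?_).trans (le_of_eq (by ring))
    rw [div_le_one hd0]
    linarith
  simp only [hx', hKK]
  have s1 : ∑ w ∈ G.neighborFinset v, (2 * N w + 1) * Real.exp (x w + 24 / d) ≤
      Real.exp (24 / d) * (6 * p v + d + 24 / d * q v + 96 / d ^ 2 * (A *ᵥ q) v) := by
    have e : 6 * p v + d + 24 / d * q v + 96 / d ^ 2 * (A *ᵥ q) v =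
        ∑ w ∈ G.neighborFinset v, (6 * N w + 1 + 2 * x w) := by
      have e1 : p v = ∑ w ∈ G.neighborFinset v, N w := SimpleGraph.adjMatrix_mulVec_apply ..
      have e2 : q v = ∑ w ∈ G.neighborFinset v, p w := SimpleGraph.adjMatrix_mulVec_apply ..
      have e3 : (A *ᵥ q) v = ∑ w ∈ G.neighborFinset v, q w :=
        SimpleGraph.adjMatrix_mulVec_apply ..
      simp only [hxd, sum_add_distrib, ← mul_sum, sum_const,
        SimpleGraph.card_neighborFinset_eq_degree, hd v, ← e1, ← e2, ← e3, nsmul_eq_mul]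
      ring
    rw [e, mul_sum]
    refine sum_le_sum fun w _ => ?_
    rw [Real.exp_add, ← mul_assoc, mul_comm]
    refine mul_le_mul_of_nonneg_left ?_ (Real.exp_pos _).le
    have a1 := exp_le_two (x0 w) (x1 w)
    have a2 := mul_le_mul_of_nonneg_left (a1.trans (by linarith [x1 w] : 1 + 2 * x w ≤ 3)) (hN0 w)
    linarith
  have s2 : Real.exp (24 / d - x v) ≤ Real.exp (24 / d) * (1 - x v / 2) := by
    rw [sub_eq_add_neg, Real.exp_add]
    exact mul_le_mul_of_nonneg_left (exp_neg_le (x0 v) (x1 v)) (Real.exp_pos _).le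
  have e1 : 1 / √(d : ℝ) = √d / d := by
    rw [div_eq_div_iff hs.ne' hd0.ne', hss, one_mul]
  calc 1 / (1 / √(d : ℝ)) * Real.exp (24 / d - x v) +
        1 / √d * ∑ w ∈ G.neighborFinset v, (2 * N w + 1) * Real.exp (x w + 24 / d)
      ≤ 1 / (1 / √(d : ℝ)) * (Real.exp (24 / d) * (1 - x v / 2)) + 1 / √d *
        (Real.exp (24 / d) * (6 * p v + d + 24 / d * q v + 96 / d ^ 2 * (A *ᵥ q) v)) := by gcongr
    _ = √d * Real.exp (24 / d) * (2 + 96 * (A *ᵥ q) v / d ^ 3) := by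
        rw [one_div_one_div, e1]
        simp only [hxd]
        field_simp
        ring
    _ ≤ √d * (1 + 48 / d) * (2 + 96 * (τ * d ^ 2 * (2 * H + 1)) / d ^ 3) := by
        have := adj_nonneg G q0 v
        gcongr
    _ = _ := by field_simp

omit [DecidableEq V] in
lemma cube_one {d : ℕ} (hd : G.IsRegularOfDegree d) (f : V → ℝ) (hf : ∀ u, 0 ≤ f u) (v : V) :
    (G.adjMatrix ℝ *ᵥ (G.adjMatrix ℝ *ᵥ (G.adjMatrix ℝ *ᵥ f))) v ≤ 1 * d ^ 2 * ∑ u, f u := by
  refine (adj_le G hd (adj_le G hd (adj_le_sum G hf)) v).trans (le_of_eq ?_)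
  ring

lemma cube_small {d : ℕ} (hc : G.Connected) (hd : G.IsRegularOfDegree d) {lam τ : ℝ}
    (h0 : 0 ≤ lam) (hl : ∀ μ ∈ spectrum ℝ (G.adjMatrix ℝ), μ ≠ d → μ ≤ lam)
    (hτ : lam + d * (2 * d) / Fintype.card V ≤ τ * d) (f : V → ℝ) (hf : ∀ u, 0 ≤ f u) (v : V) :
    (G.adjMatrix ℝ *ᵥ (G.adjMatrix ℝ *ᵥ (G.adjMatrix ℝ *ᵥ f))) v ≤ τ * d ^ 2 * ∑ u, f u := by
  rw [mulVec_mulVec, mulVec_mulVec, mul_sum]
  refine sum_le_sum fun u _ => mul_le_mul_of_nonneg_right ?_ (hf u)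
  set U := G.neighborFinset v ∪ G.neighborFinset u with hU
  have h1 : (U.card : ℝ) ≤ 2 * d := by
    have := card_union_le (G.neighborFinset v) (G.neighborFinset u)
    rw [SimpleGraph.card_neighborFinset_eq_degree, SimpleGraph.card_neighborFinset_eq_degree,
      hd v, hd u, ← two_mul] at this
    exact_mod_cast this
  have h2 : ∀ a : V → ℝ, bil G U a a ≤ τ * d * nsq a := fun a =>
    (bil_le_of_spectrum G hc hd h0 hl U a).trans
      (mul_le_mul_of_nonneg_right (le_trans (by gcongr) hτ) (nsq_nonneg a))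
  have h3 : ∀ w, nsq (G.adjMatrix ℝ w) = d := by
    intro w
    rw [← hd w, ← SimpleGraph.card_neighborFinset_eq_degree, nsq]
    simp [SimpleGraph.neighborFinset_eq_filter]
  have h4 := bil_le G h2 (G.adjMatrix ℝ u) (G.adjMatrix ℝ v)
  rw [h3, h3] at h4
  refine le_trans (le_of_eq ?_) (h4.trans (le_of_eq (by ring)))
  beta_reduce
  rw [bil_eq, Matrix.mul_assoc, mul_apply, ← sum_subset (subset_univ U)]
  · refine sum_congr rfl fun a _ => ?_
    rw [mul_apply, mul_sum, ← sum_subset (subset_univ U)]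
    · refine sum_congr rfl fun c _ => ?_
      by_cases k : G.Adj a c <;> simp [k, G.adj_comm c u]
    · intro c _ hcU
      have : ¬ G.Adj c u := fun k => hcU (by simp [hU, k.symm])
      simp [this]
  · intro a _ ha
    have : ¬ G.Adj v a := fun k => ha (by simp [hU, k])
    simp [this]

end Pool.Agent.MP_df0aa7_co.AD
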