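import Mathlib
import Pool.Agent.MP_df0aa7_co.AD.Wt
import Pool.Agent.MP_df0aa7_co.AD.Loc

/-!
Choice of parameters, uniform in the degree.
-/

set_option autoImplicit false

open Finset Matrix

namespace Pool.Agent.MP_df0aa7_co.AD

variable {V : Type} [Fintype V] [DecidableEq V] (G : SimpleGraph V) [DecidableRel G.Adj]

open Classical in
/-- At most a fraction `1 / n` of the signings have an eigenvalue of absolute value `≥ t`. -/
def Rare (t : ℝ) : Prop :=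
  ((univ.filter fun σ : G.edgeSet → ℤˣ =>
      ∃ μ ∈ spectrum ℝ (signedAdj G σ), t ≤ |μ|).card : ℝ) ≤
    Fintype.card (G.edgeSet → ℤˣ) / Fintype.card V

lemma Rare.mono {t u : ℝ} (h : Rare G t) (htu : t ≤ u) : Rare G u := by
  classical
  refine le_trans ?_ h
  refine Nat.cast_le.2 (card_le_card fun σ hσ => ?_)
  obtain ⟨μ, h1, h2⟩ := (mem_filter.1 hσ).2
  exact mem_filter.2 ⟨mem_univ _, μ, h1, htu.trans h2⟩

lemma Rare.frac {t : ℝ} (h1 : Rare G t) : 1 - 1 / (Fintype.card V : ℝ) ≤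
    (Nat.card {σ : G.edgeSet → ℤˣ // ∀ μ ∈ spectrum ℝ (signedAdj G σ), |μ| < t} : ℝ) /
      (Nat.card (G.edgeSet → ℤˣ) : ℝ) := by
  classical
  unfold Rare at h1
  have hN : (0 : ℝ) < Fintype.card (G.edgeSet → ℤˣ) := by exact_mod_cast Fintype.card_pos
  have h2 := card_filter_add_card_filter_not (s := univ)
    (fun σ : G.edgeSet → ℤˣ => ∀ μ ∈ spectrum ℝ (signedAdj G σ), |μ| < t)
  have h3 : (univ.filter fun σ : G.edgeSet → ℤˣ =>
      ¬ ∀ μ ∈ spectrum ℝ (signedAdj G σ), |μ| < t) =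
      univ.filter fun σ : G.edgeSet → ℤˣ => ∃ μ ∈ spectrum ℝ (signedAdj G σ), t ≤ |μ| := by
    refine filter_congr fun σ _ => ?_
    push Not
    rfl
  rw [h3, card_univ] at h2
  have h4 := congrArg (Nat.cast : ℕ → ℝ) h2
  rw [Nat.cast_add] at h4
  rw [Nat.card_eq_fintype_card, Nat.card_eq_fintype_card, Fintype.card_subtype,
    le_div_iff₀ hN]
  have h5 : (1 - 1 / (Fintype.card V : ℝ)) * Fintype.card (G.edgeSet → ℤˣ) =
      Fintype.card (G.edgeSet → ℤˣ) - Fintype.card (G.edgeSet → ℤˣ) / Fintype.card V := by ring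
  rw [h5]
  convert sub_le_sub_left h1 (Fintype.card (G.edgeSet → ℤˣ) : ℝ) |>.trans (le_of_eq ?_)
  linarith

lemma two_le_pow {a : ℕ} (ha : 0 < a) : (2 : ℝ) ≤ (1 + 1 / (a : ℝ)) ^ a := by
  have h0 : (0 : ℝ) < a := by exact_mod_cast ha
  have h1 := one_add_mul_le_pow (a := 1 / (a : ℝ)) (by
    have : (0 : ℝ) ≤ 1 / a := by positivity
    linarith) a
  rwa [mul_one_div_cancel h0.ne', one_add_one_eq_two] at h1

lemma rare_triv {d : ℕ} (hd : G.IsRegularOfDegree d) {t : ℝ} (ht : d < t) : Rare G t := by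
  classical
  unfold Rare
  rw [filter_eq_empty_iff.2, card_empty, Nat.cast_zero]
  · positivity
  rintro σ - ⟨μ, hμ, h⟩
  rw [← Matrix.spectrum_toLin', ← Module.End.hasEigenvalue_iff_mem_spectrum] at hμ
  obtain ⟨k, hk⟩ := eigenvalue_mem_ball hμ
  rw [mem_closedBall_iff_norm, signedAdj_apply, if_neg (G.loopless.irrefl k), sub_zero,
    Real.norm_eq_abs] at hk
  have h1 : ∑ j ∈ univ.erase k, ‖signedAdj G σ k j‖ ≤ ∑ j, if G.Adj k j then (1 : ℝ) else 0 := by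
    refine (sum_le_sum_of_subset_of_nonneg (erase_subset _ _) fun _ _ _ => norm_nonneg _).trans
      (sum_le_sum fun j _ => ?_)
    rw [signedAdj_apply]
    split_ifs
    · have := sg_mul_self G σ s(k, j)
      rw [Real.norm_eq_abs, abs_le_one_iff_mul_self_le_one, this]
    · simp
  rw [sum_boole, ← SimpleGraph.neighborFinset_eq_filter,
    SimpleGraph.card_neighborFinset_eq_degree, hd k] at h1
  linarith

lemma rare_loc {d : ℕ} (hc : G.Connected) (hd : G.IsRegularOfDegree d) {lam t D L x : ℝ}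
    (h0 : 1 ≤ lam) (hl : ∀ μ ∈ spectrum ℝ (G.adjMatrix ℝ), μ ≠ d → μ ≤ lam) (h3 : 3 ≤ d)
    (hD : D = Real.log d) (hD1 : 1 ≤ D) (hL : L = Real.log (Fintype.card V)) (hL1 : 4 / 3 ≤ L)
    (hx : x = D * Real.log L / L) (hx1 : x ≤ 1 / 48) (ht : lam * (1 + 2320 * x ^ 2) ≤ t) :
    Rare G t := by
  classical
  have := hc.nonempty
  have hn : (0 : ℝ) < Fintype.card V := by exact_mod_cast Fintype.card_pos
  have hnL : Real.exp L = Fintype.card V := by rw [hL, Real.exp_log hn]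
  have L0 : 0 < L := by linarith
  have x1 : 48 * (D * Real.log L) ≤ L := by
    rw [hx, div_le_iff₀ L0] at hx1; linarith
  have l1 : 1 ≤ Real.log L := by
    have a1 := Real.one_sub_inv_le_log_of_pos L0
    have a2 : L⁻¹ ≤ 3 / 4 := by rw [inv_le_comm₀ L0 (by norm_num)]; linarith
    have a3 : 1 * (1 / 4) ≤ D * Real.log L := mul_le_mul hD1 (by linarith) (by norm_num) (by linarith)
    rw [Real.le_log_iff_exp_le L0]
    have := Real.exp_one_lt_d9
    linarith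
  have x2 : 48 * D ≤ L := by nlinarith
  have x3 : 1 ≤ x * L := by
    rw [hx, div_mul_cancel₀ _ L0.ne']; nlinarith
  have D0 : 0 < D := by linarith
  obtain ⟨j, j1, j2⟩ : ∃ j : ℕ, (j : ℝ) + 2 ≤ L / (8 * D) ∧ L / (16 * D) ≤ j := by
    have a1 : 6 ≤ L / (8 * D) := by rw [le_div_iff₀ (by positivity)]; linarith
    have a2 : L / (16 * D) = L / (8 * D) / 2 := by field_simp; norm_num
    refine ⟨⌊L / (8 * D) - 2⌋₊, ?_, ?_⟩
    · have := Nat.floor_le (a := L / (8 * D) - 2) (by linarith)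
      linarith
    · have := Nat.lt_floor_add_one (L / (8 * D) - 2)
      linarith
  rw [le_div_iff₀ (by positivity)] at j1
  rw [div_le_iff₀ (by positivity)] at j2
  have j0 : (0 : ℝ) < j := by
    by_contra k
    have : (j : ℝ) * (16 * D) ≤ 0 := mul_nonpos_of_nonpos_of_nonneg (not_lt.1 k) (by positivity)
    linarith
  obtain ⟨m, m1, m2⟩ : ∃ m : ℕ, L ≤ m ∧ (m : ℝ) ≤ 2 * L :=
    ⟨⌈L⌉₊, Nat.le_ceil L, by have := Nat.ceil_lt_add_one L0.le; linarith⟩
  obtain ⟨θ, hθ⟩ : ∃ θ, θ = 3 * Real.log L / j := ⟨_, rfl⟩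
  have t0 : 0 ≤ θ := by rw [hθ]; positivity
  have t1 : θ ≤ 48 * x := by
    rw [hθ, hx, div_le_iff₀ j0, ← mul_div_assoc, div_mul_eq_mul_div, le_div_iff₀ L0]
    nlinarith
  obtain ⟨ρ, hρ⟩ : ∃ ρ, ρ = lam + Real.exp (-(L / 2)) := ⟨_, rfl⟩
  have r0 : 0 < ρ := by rw [hρ]; positivity
  have hball : ∀ c, ∀ f : V → ℝ, bil G (ball G (2 * (j + 1) + 1) c) f f ≤ ρ * nsq f := by
    intro c f
    refine (bil_le_of_spectrum G hc hd (by linarith) hl _ f).trans
      (mul_le_mul_of_nonneg_right ?_ (nsq_nonneg f))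
    have a1 : ((ball G (2 * (j + 1) + 1) c).card : ℝ) ≤ (d + 1) ^ (2 * (j + 1) + 1) := by
      exact_mod_cast card_ball G (fun v => (hd v).le) _ c
    have d3 : (3 : ℝ) ≤ d := by exact_mod_cast h3
    have a2 : (d : ℝ) + 1 ≤ Real.exp (2 * D) := by
      rw [two_mul, Real.exp_add, hD, Real.exp_log (by linarith)]
      nlinarith
    rw [hρ, add_le_add_iff_left, div_le_iff₀ hn, ← hnL, ← Real.exp_add]
    calc (d : ℝ) * (ball G (2 * (j + 1) + 1) c).card
        ≤ (d + 1) * (d + 1) ^ (2 * (j + 1) + 1) := by gcongr; linarith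
      _ = (d + 1) ^ (2 * j + 4) := by ring
      _ ≤ Real.exp (2 * D) ^ (2 * j + 4) := by gcongr
      _ = Real.exp ((2 * j + 4 : ℕ) * (2 * D)) := (Real.exp_nat_mul _ _).symm
      _ ≤ _ := by
        refine Real.exp_le_exp.2 ?_
        push_cast
        linarith
  have h6 : (Real.exp θ + 1 / Real.exp θ) * ρ ≤ 2 * t := by
    have a0 : θ ≤ 1 := by linarith
    have a1 := (abs_le.1 (Real.abs_exp_sub_one_sub_id_le (x := θ) (by rwa [abs_of_nonneg t0]))).2
    have a2 := (abs_le.1 (Real.abs_exp_sub_one_sub_id_le (x := -θ)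
      (by rwa [abs_neg, abs_of_nonneg t0]))).2
    have a3 : Real.exp (-(L / 2)) ≤ 8 * x ^ 2 := by
      have b1 := Real.quadratic_le_exp_of_nonneg (x := L / 2) (by positivity)
      have b2 : 1 ≤ (x * L) ^ 2 := one_le_pow₀ x3
      rw [Real.exp_neg, inv_le_iff_one_le_mul₀ (Real.exp_pos _)]
      calc (1 : ℝ) ≤ (x * L) ^ 2 := b2
        _ = 8 * x ^ 2 * ((L / 2) ^ 2 / 2) := by ring
        _ ≤ _ := by gcongr; linarith
    have a4 : θ ^ 2 ≤ (48 * x) ^ 2 := by gcongr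
    have a5 : θ ^ 2 ≤ 1 := pow_le_one₀ t0 a0
    have a6 : x ^ 2 ≤ lam * x ^ 2 := le_mul_of_one_le_left (sq_nonneg x) h0
    rw [one_div, ← Real.exp_neg]
    calc _ ≤ (2 + 2 * θ ^ 2) * ρ := mul_le_mul_of_nonneg_right (by linarith) r0.le
      _ = (2 + 2 * θ ^ 2) * lam + (2 + 2 * θ ^ 2) * Real.exp (-(L / 2)) := by rw [hρ]; ring
      _ ≤ (2 + 2 * (48 * x) ^ 2) * lam + (2 + 2 * 1) * (8 * x ^ 2) := by gcongr
      _ ≤ 2 * t := by linarith
  have hmain := tail_loc G r0 (Real.exp_pos θ) h6 j m hball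
  have h7 : (2 * ((m : ℝ) * (j + 1)) + 1) * ((j : ℝ) + 2) ^ 2 ≤
      Real.exp θ ^ (2 * j) * Real.exp (-2) := by
    have a1 : Real.exp θ ^ (2 * j) = L ^ 6 := by
      rw [← Real.exp_nat_mul, ← Real.exp_log (pow_pos L0 6), Real.log_pow, hθ]
      congr 1
      push_cast
      field_simp
      norm_num
    have a2 : (j : ℝ) + 2 ≤ L := by nlinarith
    have a3 : (1 : ℝ) / 9 ≤ Real.exp (-2) := by
      have b : Real.exp 2 ≤ 3 * 3 := by
        rw [← one_add_one_eq_two, Real.exp_add]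
        have := Real.exp_one_lt_d9
        gcongr <;> linarith
      rw [Real.exp_neg, one_div]
      gcongr
      linarith
    have a4 : 48 ≤ L := by linarith
    rw [a1]
    calc _ ≤ (2 * (2 * L * L) + L * L) * L ^ 2 := by
          gcongr
          · linarith
          · nlinarith
      _ = L ^ 4 * 45 * (1 / 9) := by ring
      _ ≤ L ^ 4 * L ^ 2 * Real.exp (-2) := by gcongr; nlinarith
      _ = _ := by ring
  have h8 : Fintype.card V * Real.exp (-2) ^ m ≤ 1 / (Fintype.card V : ℝ) := by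
    rw [← hnL, ← Real.exp_nat_mul, ← Real.exp_add, one_div, ← Real.exp_neg]
    exact Real.exp_le_exp.2 (by linarith)
  refine le_of_mul_le_mul_right (hmain.trans ?_) (pow_pos (Real.exp_pos θ) (2 * (j * m)))
  calc (Fintype.card (G.edgeSet → ℤˣ) : ℝ) * (Fintype.card V *
        ((2 * ((m : ℝ) * (j + 1)) + 1) * ((j : ℝ) + 2) ^ 2) ^ m)
      ≤ Fintype.card (G.edgeSet → ℤˣ) * (Fintype.card V *
        (Real.exp θ ^ (2 * j) * Real.exp (-2)) ^ m) := by gcongr
    _ = Fintype.card (G.edgeSet → ℤˣ) * (Fintype.card V * Real.exp (-2) ^ m) *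
        Real.exp θ ^ (2 * (j * m)) := by rw [mul_pow, ← pow_mul]; ring
    _ ≤ Fintype.card (G.edgeSet → ℤˣ) * (1 / Fintype.card V) * Real.exp θ ^ (2 * (j * m)) := by
        gcongr
    _ = _ := by ring

lemma rare_den {d m : ℕ} (hd : G.IsRegularOfDegree d) {τ t w lam : ℝ} (hτ0 : 0 ≤ τ)
    (hτ : ∀ f : V → ℝ, (∀ u, 0 ≤ f u) → ∀ v,
      (G.adjMatrix ℝ *ᵥ (G.adjMatrix ℝ *ᵥ (G.adjMatrix ℝ *ᵥ f))) v ≤ τ * d ^ 2 * ∑ u, f u)
    (w0 : 0 < w) (w1 : w ≤ 1) (w2 : 1 ≤ w ^ 2 * d) (hlam : 2 * √((d : ℝ) - 1) ≤ lam)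
    (hs1 : √(d : ℝ) ≤ lam) (hn1 : d ≤ Fintype.card V) (hn2 : (Fintype.card V : ℝ) ≤ 2 ^ m)
    (hm1 : 1 ≤ m) (hm2 : 840 * (m : ℝ) ≤ w * d) (hm3 : τ * m * √(d : ℝ) ≤ 6 * lam * (w ^ 3 * d))
    (ht : lam * (1 + 600000 * w ^ 2) ≤ t) : Rare G t := by
  classical
  have m1 : (1 : ℝ) ≤ m := by exact_mod_cast hm1
  obtain ⟨a, a1, a2⟩ : ∃ a : ℕ, 1 / w ≤ a ∧ (a : ℝ) ≤ 2 / w := by
    have b1 : 1 ≤ 1 / w := by rw [le_div_iff₀ w0]; linarith
    refine ⟨⌈1 / w⌉₊, Nat.le_ceil _, ?_⟩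
    have := Nat.ceil_lt_add_one (a := 1 / w) (by positivity)
    have e : 2 / w = 1 / w + 1 / w := by ring
    linarith
  have haR : (0 : ℝ) < a := lt_of_lt_of_le (by positivity) a1
  have ha0 : 0 < a := by exact_mod_cast haR
  obtain ⟨j, hj⟩ : ∃ j, j = 2 * a * m := ⟨_, rfl⟩
  have h1 : 2 * ((j + 1 : ℕ) : ℝ) + 1 ≤ 14 * m / w := by
    have b3 : 1 ≤ a * m := Nat.mul_pos ha0 hm1
    have b4 : 2 * (j + 1) + 1 ≤ 7 * (a * m) := by rw [hj, mul_assoc 2 a m]; omega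
    calc _ ≤ 7 * ((a : ℝ) * m) := by exact_mod_cast b4
      _ ≤ 7 * (2 / w * m) := by gcongr
      _ = _ := by ring
  have h2 : 60 * (2 * (j + 1) + 1) ≤ d := by
    have : 60 * (2 * ((j + 1 : ℕ) : ℝ) + 1) ≤ d := by
      refine (mul_le_mul_of_nonneg_left h1 (by norm_num)).trans ?_
      rw [← mul_div_assoc, div_le_iff₀ w0]
      linarith
    exact_mod_cast this
  have hd0 : (1 : ℝ) ≤ d := by exact_mod_cast (by omega : 1 ≤ d)
  have hnR : (0 : ℝ) < Fintype.card V := by exact_mod_cast (by omega : 0 < Fintype.card V)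
  obtain ⟨s, hs⟩ : ∃ s, s = √(d : ℝ) := ⟨_, rfl⟩
  have hss : s * s = d := by rw [hs]; exact Real.mul_self_sqrt (by linarith)
  have s1 : 1 ≤ s := by rw [hs]; exact Real.one_le_sqrt.2 hd0
  rw [← hs] at hs1 hm3
  have l0 : 0 < lam := by linarith
  have e2 : 1 / (d : ℝ) ≤ w ^ 2 := by rwa [div_le_iff₀ (by linarith)]
  have h3 : s * (96 * τ * (2 * ((j + 1 : ℕ) : ℝ) + 1) / d) ≤ 8064 * (lam * w ^ 2) := by
    calc _ ≤ s * (96 * τ * (14 * m / w) / d) := by gcongr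
      _ = 1344 * (τ * m * s) / (w * d) := by field_simp; ring
      _ ≤ 1344 * (6 * lam * (w ^ 3 * d)) / (w * d) := by gcongr
      _ = _ := by field_simp; norm_num
  have h5 : 2 * s ≤ lam + 2 * (lam * w ^ 2) := by
    have b0 : s - 1 / s ≤ √((d : ℝ) - 1) := by
      refine Real.le_sqrt_of_sq_le ?_
      have b1 : (s - 1 / s) ^ 2 = s * s - 2 + (1 / s) ^ 2 := by field_simp; ring
      have b2 : (1 / s) ^ 2 ≤ 1 := pow_le_one₀ (by positivity) (by rwa [div_le_one (by linarith)])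
      rw [b1, hss]
      linarith
    have b3 : 1 / s ≤ lam * w ^ 2 := by
      calc 1 / s = s * (1 / d) := by rw [← hss]; field_simp
        _ ≤ _ := by gcongr
    linarith
  obtain ⟨ρ, hρ⟩ : ∃ ρ, ρ = lam * (1 + 395282 * w ^ 2) := ⟨_, rfl⟩
  have ww : w ^ 2 * (lam * w ^ 2) ≤ lam * w ^ 2 :=
    mul_le_of_le_one_left (by positivity) (pow_le_one₀ w0.le w1)
  have h4 : s * (1 + 48 / d) * (2 + 96 * τ * (2 * ((j + 1 : ℕ) : ℝ) + 1) / d) ≤ ρ := by
    calc _ = (1 + 48 * (1 / d)) *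
          (2 * s + s * (96 * τ * (2 * ((j + 1 : ℕ) : ℝ) + 1) / d)) := by ring
      _ ≤ (1 + 48 * w ^ 2) * (lam + 2 * (lam * w ^ 2) + 8064 * (lam * w ^ 2)) := by gcongr
      _ ≤ ρ := by rw [hρ]; linarith
  have r0 : 0 < ρ := by rw [hρ]; positivity
  have h6 : (1 + 1 / (a : ℝ) + 1 / (1 + 1 / (a : ℝ))) * ρ ≤ 2 * t := by
    have b1 : 1 / (1 + 1 / (a : ℝ)) ≤ 1 - 1 / a + (1 / a) ^ 2 := by
      rw [div_le_iff₀ (by positivity)]
      have : 0 ≤ (1 / (a : ℝ)) ^ 3 := by positivity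
      nlinarith
    have b2 : 1 / (a : ℝ) ≤ w := by
      rw [div_le_iff₀ haR]
      rw [div_le_iff₀ w0] at a1
      linarith
    have b3 : (1 / (a : ℝ)) ^ 2 ≤ w ^ 2 := by gcongr
    have b4 : 0 ≤ lam * w ^ 2 := by positivity
    calc _ ≤ (2 + w ^ 2) * ρ := mul_le_mul_of_nonneg_right (by linarith) r0.le
      _ ≤ 2 * t := by rw [hρ]; linarith
  have hmain := tail G r0 (by positivity) h6 j fun v0 => by
    obtain ⟨φ, p1, p2⟩ := weight G hd hτ0 hτ h2 v0
    rw [← hs] at p2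
    exact ⟨φ, p1, fun x hx => (p2 x hx).trans (mul_le_mul_of_nonneg_right h4 (p1 x).le)⟩
  have h7 : (Fintype.card V : ℝ) ^ 4 ≤ (1 + 1 / (a : ℝ)) ^ (2 * j) := by
    have b1 := two_le_pow ha0
    calc (Fintype.card V : ℝ) ^ 4 ≤ (2 ^ m) ^ 4 := by gcongr
      _ ≤ (((1 + 1 / (a : ℝ)) ^ a) ^ m) ^ 4 := by gcongr
      _ = _ := by rw [← pow_mul, ← pow_mul, hj]; ring_nf
  have h8 : (j : ℝ) + 2 ≤ Fintype.card V := by
    exact_mod_cast (by omega : j + 2 ≤ Fintype.card V)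
  unfold Rare
  rw [le_div_iff₀ hnR]
  refine le_of_mul_le_mul_right ?_ (pow_pos hnR 3)
  calc _ = ((univ.filter fun σ : G.edgeSet → ℤˣ =>
        ∃ μ ∈ spectrum ℝ (signedAdj G σ), t ≤ |μ|).card : ℝ) * (Fintype.card V : ℝ) ^ 4 := by ring
    _ ≤ _ := mul_le_mul_of_nonneg_left h7 (Nat.cast_nonneg _)
    _ ≤ _ := hmain
    _ ≤ Fintype.card (G.edgeSet → ℤˣ) * (Fintype.card V * (Fintype.card V : ℝ) ^ 2) := by gcongr
    _ = _ := by ring

lemma rare_deg {d : ℕ} (hc : G.Connected) (hd : G.IsRegularOfDegree d) {lam t D L w : ℝ}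
    (hlam : 2 * √((d : ℝ) - 1) ≤ lam) (hl : ∀ μ ∈ spectrum ℝ (G.adjMatrix ℝ), μ ≠ d → μ ≤ lam)
    (h3 : 3 ≤ d) (hD : D = Real.log d) (hD1 : 1 ≤ D) (hL : L = Real.log (Fintype.card V))
    (hL1 : 4 / 3 ≤ L) (w0 : 0 < w) (w1 : w ≤ 1) (w3 : w ^ 3 * d = D)
    (ht : lam * (1 + 17 ^ 48 * w ^ 2) ≤ t) : Rare G t := by
  have d3 : (3 : ℝ) ≤ d := by exact_mod_cast h3
  have l2 : 2 ≤ lam := by
    have : 1 ≤ √((d : ℝ) - 1) := Real.one_le_sqrt.2 (by linarith)
    linarith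
  have w2 : 1 ≤ w ^ 2 * d := by
    have : w ^ 3 ≤ w ^ 2 := pow_le_pow_of_le_one w0.le w1 (by norm_num)
    nlinarith
  have hw : 0 ≤ lam * w ^ 2 := by positivity
  by_cases hbig : d < 17 ^ 24
  · refine rare_triv G hd (lt_of_lt_of_le ?_ ht)
    have a1 : (d : ℝ) ≤ 17 ^ 24 := by exact_mod_cast hbig.le
    have a2 : (d : ℝ) ≤ 17 ^ 48 * w ^ 2 := by
      calc (d : ℝ) ≤ d * (w ^ 2 * d) := le_mul_of_one_le_right (by linarith) w2
        _ ≤ 17 ^ 24 * (w ^ 2 * 17 ^ 24) := by gcongr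
        _ = _ := by ring
    nlinarith
  obtain ⟨u, u1, u2⟩ : ∃ u : ℝ, 17 ≤ u ∧ u ^ 24 = d := by
    refine ⟨(d : ℝ) ^ ((24 : ℕ) : ℝ)⁻¹, ?_, Real.rpow_inv_natCast_pow (by linarith) (by norm_num)⟩
    refine le_of_pow_le_pow_left₀ (n := 24) (by norm_num) (by positivity) ?_
    rw [Real.rpow_inv_natCast_pow (by linarith) (by norm_num)]
    exact_mod_cast not_lt.1 hbig
  have u0 : 0 < u := by linarith
  have hs : √(d : ℝ) = u ^ 12 := by
    rw [← u2, show u ^ 24 = (u ^ 12) ^ 2 by ring, Real.sqrt_sq (by positivity)]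
  have w8 : 1 ≤ w * u ^ 8 := by
    refine le_of_pow_le_pow_left₀ (n := 3) (by norm_num) (by positivity) ?_
    rw [mul_pow, ← pow_mul, u2, w3]
    linarith
  have u3 : (289 : ℝ) ≤ u ^ 2 := by nlinarith
  have L0 : 0 < L := by linarith
  obtain ⟨v0⟩ := hc.nonempty
  have hn : (0 : ℝ) < Fintype.card V := by exact_mod_cast Fintype.card_pos_iff.2 ⟨v0⟩
  by_cases hLs : u ^ 12 ≤ L
  · obtain ⟨v, v1, v2⟩ : ∃ v : ℝ, u ≤ v ∧ v ^ 12 = L := by
      refine ⟨L ^ ((12 : ℕ) : ℝ)⁻¹, ?_, Real.rpow_inv_natCast_pow L0.le (by norm_num)⟩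
      refine le_of_pow_le_pow_left₀ (n := 12) (by norm_num) (by positivity) ?_
      rwa [Real.rpow_inv_natCast_pow L0.le (by norm_num)]
    have v0 : 0 < v := by linarith
    have a1 : D ≤ 24 * u := by
      rw [hD, ← u2, Real.log_pow]
      have := Real.log_le_self u0.le
      push_cast
      linarith
    have a2 : Real.log L ≤ 12 * v := by
      rw [← v2, Real.log_pow]
      have := Real.log_le_self v0.le
      push_cast
      linarith
    have a3 : 0 ≤ Real.log L := Real.log_nonneg (by linarith)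
    have a4 : D * Real.log L / L * u ^ 8 ≤ 288 / u ^ 2 := by
      calc D * Real.log L / L * u ^ 8 ≤ 24 * u * (12 * v) / L * u ^ 8 := by gcongr
        _ = 288 * u ^ 9 / v ^ 11 := by rw [← v2]; field_simp; norm_num
        _ ≤ 288 * u ^ 9 / u ^ 11 := by gcongr
        _ = _ := by field_simp
    have a5 : 288 / u ^ 2 ≤ 1 := by rw [div_le_one (by positivity)]; linarith
    have a6 : D * Real.log L / L ≤ w :=
      le_of_mul_le_mul_right ((a4.trans a5).trans w8) (by positivity)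
    have a7 : 0 ≤ D * Real.log L / L := by positivity
    refine rare_loc G hc hd (by linarith) hl h3 hD hD1 hL hL1 rfl ?_ (le_trans ?_ ht)
    · have b : (48 : ℝ) ≤ u ^ 8 := by
        have := pow_le_pow_right₀ (a := u) (by linarith) (by norm_num : 2 ≤ 8)
        linarith
      have := mul_le_mul_of_nonneg_left b a7
      linarith
    · gcongr
      norm_num
  · obtain ⟨m, m1, m2⟩ : ∃ m : ℕ, 2 * L ≤ m ∧ (m : ℝ) ≤ 3 * L :=
      ⟨⌈2 * L⌉₊, Nat.le_ceil _, by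
        have := Nat.ceil_lt_add_one (a := 2 * L) (by positivity); linarith⟩
    have hdn : d ≤ Fintype.card V := by rw [← hd v0]; exact (G.degree_lt_card_verts v0).le
    have b1 : (Fintype.card V : ℝ) ≤ 2 ^ m := by
      rw [← Real.exp_log hn, ← hL, ← Real.exp_log (by norm_num : (0 : ℝ) < 2), ← Real.exp_nat_mul]
      refine Real.exp_le_exp.2 ?_
      have := Real.log_two_gt_d9
      nlinarith
    have b2 : 1 ≤ m := by exact_mod_cast (by linarith : (1 : ℝ) ≤ m)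
    have b3 : (m : ℝ) ≤ 3 * u ^ 12 := by linarith
    have b4 : 840 * (m : ℝ) ≤ w * d := by
      have c1 : (2520 : ℝ) ≤ u ^ 4 := by nlinarith
      calc 840 * (m : ℝ) ≤ 1 * (2520 * u ^ 12) := by linarith
        _ ≤ w * u ^ 8 * (u ^ 4 * u ^ 12) := by gcongr
        _ = _ := by rw [← u2]; ring
    have b5 : √(d : ℝ) ≤ lam := by
      refine le_trans (Real.sqrt_le_iff.2 ⟨by positivity, ?_⟩) hlam
      rw [mul_pow, Real.sq_sqrt (by linarith)]
      linarith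
    have b6 : lam * (1 + 600000 * w ^ 2) ≤ t := by
      refine le_trans ?_ ht
      gcongr
      norm_num
    by_cases hn2 : (d : ℝ) ^ 2 ≤ Fintype.card V
    · refine rare_den G (τ := 2 * lam / d) hd (by positivity)
        (cube_small G hc hd (by linarith) hl ?_) w0 w1 w2 hlam b5 hdn b1 b2 b4 ?_ b6
      · have : (d : ℝ) * (2 * d) / Fintype.card V ≤ 2 := by
          rw [div_le_iff₀ hn]
          linarith
        rw [div_mul_cancel₀ _ (by linarith)]
        linarith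
      · rw [w3, hs]
        calc 2 * lam / d * m * u ^ 12 ≤ 2 * lam / d * (3 * u ^ 12) * u ^ 12 := by gcongr
          _ = 6 * lam * 1 := by rw [← u2]; field_simp; norm_num
          _ ≤ _ := by gcongr
    · refine rare_den G (τ := 1) hd (by norm_num) (cube_one G hd) w0 w1 w2 hlam b5 hdn b1 b2 b4
        ?_ b6
      have c1 : L ≤ 2 * D := by
        have := Real.log_le_log hn (not_le.1 hn2).le
        rwa [Real.log_pow, ← hL, ← hD, Nat.cast_ofNat] at this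
      rw [w3]
      calc 1 * (m : ℝ) * √(d : ℝ) ≤ 1 * (6 * D) * lam := by gcongr; linarith
        _ = _ := by ring

theorem main {d : ℕ} (hc : G.Connected) (hd : G.IsRegularOfDegree d) {lam : ℝ} (h3 : 3 ≤ d)
    (hlam : 2 * √((d : ℝ) - 1) ≤ lam) (hl : ∀ μ ∈ spectrum ℝ (G.adjMatrix ℝ), μ ≠ d → μ ≤ lam) :
    Rare G (lam * (1 + 2304 * 17 ^ 48 * min ((Real.log d / d) ^ (2 / 3 : ℝ))
      ((Real.log d * Real.log (Real.log (Fintype.card V)) / Real.log (Fintype.card V)) ^ 2))) := by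
  have d3 : (3 : ℝ) ≤ d := by exact_mod_cast h3
  have l2 : 2 ≤ lam := by
    have : 1 ≤ √((d : ℝ) - 1) := Real.one_le_sqrt.2 (by linarith)
    linarith
  have hD1 : 1 ≤ Real.log d := by
    rw [Real.le_log_iff_exp_le (by linarith)]
    have := Real.exp_one_lt_d9
    linarith
  have hL1 : 4 / 3 ≤ Real.log (Fintype.card V) := by
    obtain ⟨v0⟩ := hc.nonempty
    have a1 : 4 ≤ Fintype.card V := by
      have := G.degree_lt_card_verts v0
      rw [hd v0] at this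
      omega
    have a2 : (2 : ℝ) ^ 2 ≤ Fintype.card V := by exact_mod_cast a1
    have a3 := Real.log_le_log (by norm_num) a2
    have := Real.log_two_gt_d9
    rw [Real.log_pow, Nat.cast_ofNat] at a3
    linarith
  have q0 : 0 < Real.log d / d := by positivity
  obtain ⟨w, w0, w2, w3⟩ : ∃ w : ℝ, 0 < w ∧ w ^ 2 = (Real.log d / d) ^ (2 / 3 : ℝ) ∧
      w ^ 3 = Real.log d / d := by
    refine ⟨(Real.log d / d) ^ (1 / 3 : ℝ), by positivity, ?_, ?_⟩
    · rw [← Real.rpow_natCast, ← Real.rpow_mul q0.le]; norm_num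
    · rw [← Real.rpow_natCast, ← Real.rpow_mul q0.le]; norm_num
  have w1 : w ≤ 1 := by
    refine le_of_pow_le_pow_left₀ (n := 3) (by norm_num) (by norm_num) ?_
    rw [w3, one_pow, div_le_one (by linarith)]
    exact Real.log_le_self (by linarith)
  have w4 : w ^ 3 * d = Real.log d := by rw [w3, div_mul_cancel₀ _ (by linarith)]
  have w5 : w ^ 2 ≤ 1 := pow_le_one₀ w0.le w1
  rw [← w2]
  set x := Real.log d * Real.log (Real.log (Fintype.card V)) / Real.log (Fintype.card V) with hx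
  rcases le_total (w ^ 2) (x ^ 2) with h | h
  · rw [min_eq_left h]
    refine rare_deg G hc hd hlam hl h3 rfl hD1 rfl hL1 w0 w1 w4 ?_
    gcongr
    norm_num
  · rw [min_eq_right h]
    by_cases k : x ≤ 1 / 48
    · refine rare_loc G hc hd (by linarith) hl h3 rfl hD1 rfl hL1 hx k ?_
      gcongr
      norm_num
    · refine rare_deg G hc hd hlam hl h3 rfl hD1 rfl hL1 w0 w1 w4 ?_
      have a1 : (1 / 48) ^ 2 ≤ x ^ 2 := by gcongr; exact (not_le.1 k).le
      refine mul_le_mul_of_nonneg_left ?_ (by linarith)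
      linarith

end Pool.Agent.MP_df0aa7_co.AD
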